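import Pool.Agent.H38.NP.Defs

/-!
Induced subgraphs of binary De Bruijn graphs.
-/

namespace Pool.Agent.H38.Dbr

/-- `L` is a `(2, k)`-labelling of the digraph with arc relation `A`. -/
def IsLab {V : Type} (A : V → V → Prop) (k : ℕ) (L : V → Fin k → Bool) : Prop :=
  Function.Injective L ∧
    ∀ u v, A u v ↔ ∀ (t : ℕ) (h : t + 1 < k), L u ⟨t + 1, h⟩ = L v ⟨t, Nat.lt_of_succ_lt h⟩

/-- The digraph on `Fin n` with arc list `E` has a `(2, k)`-labelling for some `k ≥ 1`. -/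
def DB (p : ℕ × List (ℕ × ℕ)) : Prop :=
  ∃ k, 1 ≤ k ∧ ∃ L, IsLab (fun u v : Fin p.1 => (u.val, v.val) ∈ p.2) k L

end Pool.Agent.H38.Dbr
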