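import Pool.Agent.H38.Dbr.Defs
import Pool.Agent.H38.NP.Col4

/-!
NP-hardness of recognising induced subgraphs of binary De Bruijn graphs.
-/

namespace Pool.Agent.H38.Dbr

open Pool.Agent.H38.NP Pool.Agent.H36.Gr

abbrev T3 := ℕ × ℕ × ℕ

def ep (E : List (ℕ × ℕ)) (p s : ℕ) : ℕ := if s = 0 then (E.getD p default).1 else (E.getD p default).2

def y0 (B p s : ℕ) : ℕ := 8 * (s + 2 * (2 ^ B * p))

def Val (E : List (ℕ × ℕ)) (B : ℕ) (u : T3) : Prop :=
  (u.1 = 0 ∧ u.2.1 < 2 ^ (2 * B + 4) ∧ u.2.2 = 0) ∨ ∃ p < E.length, ∃ s < 2, u.2.1 = y0 B p s / 2 ^ u.1 ∧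
    ((u.1 = 1 ∧ u.2.2 = 0) ∨ (1 ≤ u.1 ∧ u.1 ≤ 4 ∧ u.2.2 = 1) ∨
      (2 ≤ u.1 ∧ u.1 ≤ 2 * B + 4 ∧ u.2.2 = 2 + ep E p s))

def par (l x : ℕ) : ℕ := if l = 0 then 0 else if x = 1 then 1 else if l = 1 then 0 else x

def Arc (u v : T3) : Prop := v.1 = u.1 + 1 ∧ v.2.1 = u.2.1 / 2 ∧ u.2.2 = par u.1 v.2.2

def AL (V : T3 → Prop) (k : ℕ) (L : T3 → ℕ → Bool) : Prop :=
  ∀ u v, V u → V v → ((∀ t < k, L u t = L v t) → u = v) ∧
    (Arc u v ↔ ∀ t, t + 1 < k → L u (t + 1) = L v t)

variable {E : List (ℕ × ℕ)} {B : ℕ}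

theorem y0_lt (hE : E.length ≤ 2 ^ B) {p s} (hp : p < E.length) (hs : s < 2) :
    y0 B p s < 2 ^ (2 * B + 4) := by
  have : 2 ^ (2 * B + 4) = 16 * (2 ^ B * 2 ^ B) := by ring
  have : 2 ^ B * (p + 1) ≤ 2 ^ B * 2 ^ B := Nat.mul_le_mul_left _ (by omega)
  have : 0 < 2 ^ B := by positivity
  unfold y0; nlinarith

theorem hd (y l : ℕ) : y / 2 ^ (l + 1) = y / 2 ^ l / 2 := by rw [pow_succ, Nat.div_div_eq_div_mul]

theorem par2 {l x} (h : 2 ≤ l) : 2 + x = par l (2 + x) := by unfold par; split_ifs <;> omega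

theorem sound (hE : E.length ≤ 2 ^ B) (hn : ∀ e ∈ E, e.1 ≠ e.2) {k L} (h : AL (Val E B) k L) : Col4 E := by
  have hk : 2 * B + 4 ≤ k := by
    have := Fintype.card_le_of_injective (fun (y : Fin (2 ^ (2 * B + 4))) (t : Fin k) => L (0, y, 0) t)
      fun y z e => by
        simpa [Fin.ext_iff] using (h _ _ (.inl ⟨rfl, y.2, rfl⟩) (.inl ⟨rfl, z.2, rfl⟩)).1
          fun t ht => congrFun e ⟨t, ht⟩
    simpa [Nat.pow_le_pow_iff_right] using this
  refine ⟨fun i => (L (2 * B + 4, 0, 2 + i) (k - (2 * B + 3)), L (2 * B + 4, 0, 2 + i) (k - (2 * B + 2))),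
    fun e he hc => ?_⟩
  obtain ⟨p, hp, rfl⟩ := List.getElem_of_mem he
  have v0 : ∀ s < 2, Val E B (0, y0 B p s / 2 ^ 0, 0) := fun s hs => .inl ⟨rfl, by simpa using y0_lt hE hp hs, rfl⟩
  have v1 : ∀ s < 2, Val E B (1, y0 B p s / 2 ^ 1, 0) := fun s hs => .inr ⟨p, hp, s, hs, rfl, by simp⟩
  have v2 : ∀ s < 2, ∀ l, 1 ≤ l → l ≤ 4 → Val E B (l, y0 B p s / 2 ^ l, 1) := fun s hs l a b =>
    .inr ⟨p, hp, s, hs, rfl, by simp [a, b]⟩
  have v3 : ∀ s < 2, ∀ l, 2 ≤ l → l ≤ 2 * B + 4 → Val E B (l, y0 B p s / 2 ^ l, 2 + ep E p s) :=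
    fun s hs l a b => .inr ⟨p, hp, s, hs, rfl, by simp [a, b]⟩
  have st : ∀ {l y x x'}, Val E B (l, y / 2 ^ l, x) → Val E B (l + 1, y / 2 ^ (l + 1), x') → x = par l x' →
      ∀ t, t + 1 < k → L (l, y / 2 ^ l, x) (t + 1) = L (l + 1, y / 2 ^ (l + 1), x') t :=
    fun a b c => (h _ _ a b).2.1 ⟨rfl, hd _ _, c⟩
  have pa : ∀ s < 2, ∀ d l t, 2 ≤ l → l + d = 2 * B + 4 → t + d < k →
      L (l, y0 B p s / 2 ^ l, 2 + ep E p s) (t + d) = L (2 * B + 4, 0, 2 + ep E p s) t := by
    intro s hs d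
    induction d with
    | zero => rintro l t - (rfl : l = _) -; rw [Nat.div_eq_of_lt (y0_lt hE hp hs)]; rfl
    | succ d ih =>
      intro l t a b c
      rw [← ih (l + 1) t (by omega) (by omega) (by omega)]
      exact st (v3 s hs l a (by omega)) (v3 s hs _ (by omega) (by omega)) (par2 a) _ c
  have e4 : y0 B p 0 / 2 ^ 4 = y0 B p 1 / 2 ^ 4 := by unfold y0; omega
  have q1 : ∀ s < 2, ∀ t, t + 3 < k → L (1, y0 B p s / 2 ^ 1, 1) (t + 3) = L (4, y0 B p s / 2 ^ 4, 1) t :=
    fun s hs t ht => by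
      rw [st (v2 s hs 1 (by omega) (by omega)) (v2 s hs 2 (by omega) (by omega)) rfl _ ht,
        st (v2 s hs 2 (by omega) (by omega)) (v2 s hs 3 (by omega) (by omega)) rfl _ (by omega),
        st (v2 s hs 3 (by omega) (by omega)) (v2 s hs 4 (by omega) (by omega)) rfl _ (by omega)]
  have q2 : ∀ s < 2, ∀ t, t + 1 < k → L (1, y0 B p s / 2 ^ 1, 0) t = L (1, y0 B p s / 2 ^ 1, 1) t :=
    fun s hs t ht => by
      rw [← st (v0 s hs) (v1 s hs) rfl _ ht, ← st (v0 s hs) (v2 s hs 1 (by omega) (by omega)) rfl _ ht]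
  have q3 : ∀ s < 2, L (1, y0 B p s / 2 ^ 1, 0) (k - 1) = !L (1, y0 B p s / 2 ^ 1, 1) (k - 1) :=
    fun s hs => Bool.eq_not.2 fun e => by
      simpa using (h _ _ (v1 s hs) (v2 s hs 1 (by omega) (by omega))).1 fun t ht => by
        by_cases e' : t + 1 < k
        · exact q2 s hs t e'
        · rwa [show t = k - 1 by omega]
  have q4 : ∀ t, t + 3 < k → L (1, y0 B p 0 / 2 ^ 1, 0) (t + 3) = L (1, y0 B p 1 / 2 ^ 1, 0) (t + 3) :=
    fun t ht => by
      have := (q1 0 (by omega) t ht).trans (e4 ▸ (q1 1 (by omega) t ht).symm)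
      by_cases e' : t + 3 + 1 < k
      · rw [q2 0 (by omega) _ e', q2 1 (by omega) _ e', this]
      · rw [show t + 3 = k - 1 by omega] at this ⊢; rw [q3 0 (by omega), q3 1 (by omega), this]
  have q5 : ∀ s < 2, ∀ t, t + 2 < k →
      L (1, y0 B p s / 2 ^ 1, 0) (t + 2) = L (3, y0 B p s / 2 ^ 3, 2 + ep E p s) t := fun s hs t ht => by
    rw [st (v1 s hs) (v3 s hs 2 (by omega) (by omega)) (by simp [par]; omega) _ ht,
      st (v3 s hs 2 (by omega) (by omega)) (v3 s hs 3 (by omega) (by omega)) (par2 le_rfl) _ (by omega)]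
  have e0 : ep E p 0 = E[p].1 := by simp [ep, hp]
  have e1 : ep E p 1 = E[p].2 := by simp [ep, hp]
  simp only [Prod.mk.injEq, ← e0, ← e1] at hc
  have q6 : ∀ t, t + 1 < k → L (3, y0 B p 0 / 2 ^ 3, 2 + ep E p 0) (t + 1) =
      L (3, y0 B p 1 / 2 ^ 3, 2 + ep E p 1) (t + 1) := fun t ht => by
    by_cases a : t + 3 < k
    · rw [← q5 0 (by omega) _ a, ← q5 1 (by omega) _ a, q4 t a]
    have a1 := fun s hs t => pa s hs (2 * B + 1) 3 t (by omega) (by omega)
    by_cases b : t + 3 = k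
    · rw [show t + 1 = k - (2 * B + 3) + (2 * B + 1) by omega, a1 0 (by omega) _ (by omega),
        a1 1 (by omega) _ (by omega), hc.1]
    · rw [show t + 1 = k - (2 * B + 2) + (2 * B + 1) by omega, a1 0 (by omega) _ (by omega),
        a1 1 (by omega) _ (by omega), hc.2]
  have := ((h _ _ (v3 1 (by omega) 3 (by omega) (by omega)) (v3 0 (by omega) 4 (by omega) (by omega))).2.2
    fun t ht => (q6 t ht).symm.trans (st (v3 0 (by omega) 3 (by omega) (by omega))
      (v3 0 (by omega) 4 (by omega) (by omega)) (par2 (by omega)) t ht)).2.2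
  simp only [← par2 (show 2 ≤ 3 by omega)] at this
  exact hn _ he (by omega)

def X (c : ℕ → Bool × Bool) (x j : ℕ) : Bool :=
  if j = 0 then decide (x = 1) else if x < 2 then false else if j = 1 then (c (x - 2)).1
  else if j = 2 then (c (x - 2)).2 else if j = 3 then false else (x - 2).testBit (j - 4)

def lab (c : ℕ → Bool × Bool) (D : ℕ) (u : T3) (t : ℕ) : Bool :=
  if u.1 + t < D then u.2.1.testBit t else if u.1 + t < 2 * D + 3 then
    decide (u.1 + t = D ∨ u.1 + t = 2 * D + 2) else X c u.2.2 (u.1 + t - (2 * D + 3))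

theorem val_lt (hE : E.length ≤ 2 ^ B) {l y x} (h : Val E B (l, y, x)) :
    l ≤ 2 * B + 4 ∧ y < 2 ^ (2 * B + 4 - l) := by
  simp only [Val] at h
  rcases h with ⟨rfl, h, -⟩ | ⟨p, hp, s, hs, rfl, h⟩
  · exact ⟨by omega, h⟩
  · have : l ≤ 2 * B + 4 := by omega
    refine ⟨this, Nat.div_lt_of_lt_mul ?_⟩
    rw [← pow_add, Nat.add_sub_cancel' this]; exact y0_lt hE hp hs

theorem bits_eq {a b n : ℕ} (ha : a < 2 ^ n) (hb : b < 2 ^ n) (h : ∀ t < n, a.testBit t = b.testBit t) :
    a = b := Nat.eq_of_testBit_eq fun t => by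
  by_cases e : t < n
  · exact h t e
  · have := Nat.pow_le_pow_right (show 0 < 2 by omega) (not_lt.1 e)
    rw [Nat.testBit_lt_two_pow (by omega), Nat.testBit_lt_two_pow (by omega)]

theorem key {c : ℕ → Bool × Bool} (hc : ∀ e ∈ E, c e.1 ≠ c e.2) (hB : ∀ p < E.length, ∀ s, ep E p s < 2 ^ B)
    {l y x y' x'} (h : Val E B (l, y, x)) (h' : Val E B (l, y', x')) (e : y / 2 = y' / 2)
    (e' : ∀ j < l, X c x j = X c x' j) : x = x' := by
  simp only [Val] at h h'
  rcases h with h | ⟨p, hp, s, hs, rfl, h⟩ <;> rcases h' with h' | ⟨q, hq, r, hr, rfl, h'⟩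
  iterate 3 omega
  have a0 : x = 1 ↔ x' = 1 := by simpa [X] using e' 0 (by omega)
  by_cases h1 : l = 1 ∨ x = 1
  · omega
  obtain rfl : x = 2 + ep E p s := by omega
  obtain rfl : x' = 2 + ep E q r := by omega
  congr 1
  have z : ∀ n, ¬ 2 + n < 2 := fun n => by omega
  by_cases h2 : B + 4 ≤ l
  · exact bits_eq (hB p hp s) (hB q hq r) fun t ht => by simpa [X, z] using e' (t + 4) (by omega)
  rw [← hd, ← hd] at e
  have f : ∀ p, ∀ s < 2, y0 B p s / 2 ^ (l + 1) / 2 ^ (B + 3 - l) = p := fun p s hs => by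
    rw [Nat.div_div_eq_div_mul, ← pow_add, show l + 1 + (B + 3 - l) = 4 + B by omega, pow_add,
      ← Nat.div_div_eq_div_mul, show y0 B p s / 2 ^ 4 = 2 ^ B * p by unfold y0; omega]
    simp
  obtain rfl : p = q := by rw [← f p s hs, e, f q r hr]
  by_cases h3 : s = r
  · rw [h3]
  by_cases h4 : l = 2
  · subst h4; unfold y0 at e; omega
  have : c (ep E p s) = c (ep E p r) :=
    Prod.ext (by simpa [X, z] using e' 1 (by omega)) (by simpa [X, z] using e' 2 (by omega))
  have h5 := hc _ (List.getElem_mem hp)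
  rcases show s = 0 ∧ r = 1 ∨ s = 1 ∧ r = 0 by omega with ⟨rfl, rfl⟩ | ⟨rfl, rfl⟩
  · exact (h5 (by simpa [ep, hp] using this)).elim
  · exact (h5 (by simpa [ep, hp] using this.symm)).elim

theorem complete (hE : E.length ≤ 2 ^ B) (hB : ∀ p < E.length, ∀ s, ep E p s < 2 ^ B) (h : Col4 E) :
    ∃ L, AL (Val E B) (2 * (2 * B + 4) + 3) L := by
  obtain ⟨c, hc⟩ := h
  refine ⟨lab c (2 * B + 4), fun ⟨l, y, x⟩ ⟨l', y', x'⟩ hu hv => ?_⟩
  obtain ⟨a1, a2⟩ := val_lt hE hu
  obtain ⟨b1, b2⟩ := val_lt hE hv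
  generalize hD : 2 * B + 4 = D at *
  refine ⟨fun e => ?_, ?_, fun e => ?_⟩
  · obtain rfl : l = l' := by
      have e1 := e (2 * D + 2 - l) (by omega)
      have e2 := e (2 * D + 2 - l') (by omega)
      simp only [lab] at e1 e2
      by_contra hn
      rcases Nat.lt_or_gt_of_ne hn with hn | hn
      · rw [if_neg (by omega), if_pos (by omega), if_neg (by omega), if_pos (by omega)] at e2
        rw [decide_eq_decide] at e2; omega
      · rw [if_neg (by omega), if_pos (by omega), if_neg (by omega), if_pos (by omega)] at e1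
        rw [decide_eq_decide] at e1; omega
    obtain rfl : y = y' := bits_eq a2 b2 fun t ht => by
      have := e t (by omega)
      simpa only [lab, if_pos (show l + t < D by omega)] using this
    rw [key hc hB hu hv rfl fun j hj => ?_]
    have := e (2 * D + 3 + j - l) (by omega)
    simp only [lab] at this
    rwa [if_neg (by omega), if_neg (by omega), if_neg (by omega), if_neg (by omega),
      show l + (2 * D + 3 + j - l) - (2 * D + 3) = j by omega] at this
  · simp only [Arc]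
    rintro ⟨rfl, rfl, rfl⟩ t ht
    simp only [lab, show l + 1 + t = l + (t + 1) by omega, Nat.testBit_succ]
    split_ifs with c1 c2
    · rfl
    · rfl
    · generalize hj : l + (t + 1) - (2 * D + 3) = j
      simp only [Val] at hv
      rcases hv with hv | ⟨p, -, s, -, -, hv⟩
      · omega
      unfold par
      split_ifs with d1 d2 d3
      · omega
      · rw [d2]
      · simp [X, show j = 0 by omega, d2]
      · rfl
  · obtain rfl : l' = l + 1 := by
      by_contra hn
      rcases Nat.lt_or_gt_of_ne hn with hn | hn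
      · have e1 := e (2 * D + 1 - l) (by omega)
        simp only [lab] at e1
        rw [if_neg (by omega), if_pos (by omega), if_neg (by omega), if_pos (by omega)] at e1
        rw [decide_eq_decide] at e1; omega
      · have e1 := e (2 * D + 2 - l') (by omega)
        simp only [lab] at e1
        rw [if_neg (by omega), if_pos (by omega), if_neg (by omega), if_pos (by omega)] at e1
        rw [decide_eq_decide] at e1; omega
    have e1 : y' = y / 2 := bits_eq b2 (by
      rw [show D - l = D - (l + 1) + 1 by omega, pow_succ] at a2; omega) fun t ht => by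
        have := e t (by omega)
        simp only [lab] at this
        rw [if_pos (by omega), if_pos (by omega), Nat.testBit_succ] at this
        exact this.symm
    refine ⟨rfl, e1, show x = par l x' from ?_⟩
    simp only [Val] at hv
    rcases hv with hv | ⟨p, hp, s, hs, e2, hv'⟩
    · omega
    refine key (y' := y0 B p s / 2 ^ l) hc hB hu ?_ (by rw [← e1, e2, hd]) fun j hj => ?_
    · unfold par
      split_ifs with d1 d2 d3
      · exact .inl ⟨d1, by simpa [d1] using y0_lt hE hp hs, rfl⟩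
      all_goals exact .inr ⟨p, hp, s, hs, rfl, by simp only [true_and, and_true]; omega⟩
    · have := e (2 * D + 2 + j - l) (by omega)
      simp only [lab] at this
      rw [if_neg (by omega), if_neg (by omega), if_neg (by omega), if_neg (by omega),
        show l + (2 * D + 2 + j - l + 1) - (2 * D + 3) = j by omega,
        show l + 1 + (2 * D + 2 + j - l) - (2 * D + 3) = j by omega] at this
      rw [this]
      unfold par
      split_ifs with d1 d2 d3
      · omega
      · rw [d2]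
      · simp [X, show j = 0 by omega, d2]
      · rfl

def bb (E : List (ℕ × ℕ)) : ℕ := lg (E.length + (E.map fun e => e.1 + e.2).sum)

theorem bb1 : E.length ≤ 2 ^ bb E := (Nat.le_add_right _ _).trans (lt_lg _).le

theorem bb2 : ∀ p < E.length, ∀ s, ep E p s < 2 ^ bb E := fun p hp s => by
  have := List.le_sum_of_mem (List.mem_map_of_mem (f := fun e : ℕ × ℕ => e.1 + e.2) (List.getElem_mem hp))
  refine lt_of_le_of_lt ?_ (lt_lg _)
  unfold ep; rw [List.getD_eq_getElem _ _ hp]; split_ifs <;> omega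

def valB (E : List (ℕ × ℕ)) (B N : ℕ) (u : T3) : Bool :=
  decide (u.1 = 0 ∧ u.2.1 < 16 * (N * N) ∧ u.2.2 = 0) ||
    (List.range E.length).any fun p => (List.range 2).any fun s =>
      decide (u.2.1 = 8 * (s + 2 * (N * p)) / 2 ^ u.1 ∧
        ((u.1 = 1 ∧ u.2.2 = 0) ∨ (1 ≤ u.1 ∧ u.1 ≤ 4 ∧ u.2.2 = 1) ∨
          (2 ≤ u.1 ∧ u.1 ≤ 2 * B + 4 ∧ u.2.2 = 2 + ep E p s)))

def verts (E : List (ℕ × ℕ)) (B N : ℕ) : List T3 :=
  ((List.range (2 * B + 5)).product ((List.range (16 * (N * N))).product (List.range (N + 2)))).filter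
    (valB E B N)

theorem mem_verts {u} : u ∈ verts E (bb E) (2 ^ bb E) ↔ Val E (bb E) u := by
  obtain ⟨l, y, x⟩ := u
  have e0 : 16 * (2 ^ bb E * 2 ^ bb E) = 2 ^ (2 * bb E + 4) := by ring
  have e : valB E (bb E) (2 ^ bb E) (l, y, x) = true ↔ Val E (bb E) (l, y, x) := by
    simp only [valB, Val, y0, e0, Bool.or_eq_true, List.any_eq_true, List.mem_range, decide_eq_true_eq]
  simp only [verts, List.mem_filter, e, List.pair_mem_product, List.mem_range, e0, and_iff_right_iff_imp]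
  intro h
  obtain ⟨a, b⟩ := val_lt bb1 h
  refine ⟨by omega, b.trans_le (Nat.pow_le_pow_right (by omega) (by omega)), ?_⟩
  simp only [Val] at h
  rcases h with ⟨-, -, rfl⟩ | ⟨p, hp, s, -, -, h⟩
  · positivity
  · have := bb2 p hp s; omega

instance (u v) : Decidable (Arc u v) := by unfold Arc; infer_instance

def inst (E : List (ℕ × ℕ)) : ℕ × List (ℕ × ℕ) :=
  mkG (verts E (bb E) (2 ^ bb E)) fun u v => decide (Arc u v)

attribute [fun_prop] PT.divPow

theorem pt_inst : PT inst := by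
  have h0 : PT fun E : List (ℕ × ℕ) => E.length + (E.map fun e => e.1 + e.2).sum := by fun_prop
  have h1 : PT bb := h0.lg
  have h2 : PT fun E => 2 ^ bb E :=
    h1.twoPow ((((PB.const 2).mul h0.nat_pb).add (PB.const 1)).mono fun _ => lg_le _)
  have h3 : PT fun p : List (ℕ × ℕ) × ℕ × ℕ => verts p.1 p.2.1 p.2.2 := by
    unfold verts valB ep; fun_prop
  exact pt_mkG (h3.comp (PT.id'.mk (h1.mk h2))) (by unfold Arc par; fun_prop)

theorem db_nph : NPH (fun _ => True) DB := by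
  refine col4_nph.reduce inst pt_inst fun E hE => ⟨trivial, ?_⟩
  have nd : (verts E (bb E) (2 ^ bb E)).Nodup :=
    (List.nodup_range.product (List.nodup_range.product List.nodup_range)).filter _
  have ea : ∀ u v : Fin (verts E (bb E) (2 ^ bb E)).length,
      (u.val, v.val) ∈ (inst E).2 ↔ Arc (code _ u) (code _ v) := fun u v => by
    simp [inst, mkG, mem_edgesOf, code]
  have hv := fun u => mem_verts.1 (code_mem (verts E (bb E) (2 ^ bb E)) u)
  constructor
  · intro h
    obtain ⟨L, h⟩ := complete bb1 bb2 h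
    exact ⟨2 * (2 * bb E + 4) + 3, by omega, fun u t => L (code _ u) t, fun u v e =>
      code_inj nd ((h _ _ (hv u) (hv v)).1 fun t ht => congrFun e ⟨t, ht⟩), fun u v =>
        (ea u v).trans (h _ _ (hv u) (hv v)).2⟩
  · rintro ⟨k, hk, L, h1, h2⟩
    classical
    refine sound bb1 hE (k := k) (L := fun u t => if h : u ∈ verts E (bb E) (2 ^ bb E) ∧ t < k then
      L (ix nd u h.1) ⟨t, h.2⟩ else false) fun u v hu hv => ?_
    obtain ⟨u, rfl⟩ := code_surj (mem_verts.2 hu)
    obtain ⟨v, rfl⟩ := code_surj (mem_verts.2 hv)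
    simp only [code_mem, true_and, ix_code]
    refine ⟨fun e => congrArg _ (h1 (funext fun t => by simpa using e t t.2)),
      (ea u v).symm.trans ((h2 u v).trans (forall₂_congr fun t ht => ?_))⟩
    rw [dif_pos ht, dif_pos (Nat.lt_of_succ_lt ht)]

end Pool.Agent.H38.Dbr
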